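import Pool.Agent.R453.CI.Defs

/-!
# Completely independent spanning trees and colourings with choices
-/

set_option autoImplicit false

namespace Pool.Agent.R453.CI

open Relation SimpleGraph

/-- The spanning trees `T 0, …, T (k - 1)` of `G` are completely independent: for all `i ≠ j` and all `u ≠ v` the paths
between `u` and `v` in `T i` and in `T j` share no edge and no internal vertex. -/
def CIST {V : Type} (G : SimpleGraph V) {k : ℕ} (T : Fin k → SimpleGraph V) : Prop :=
  (∀ i, T i ≤ G ∧ (T i).IsTree) ∧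
  ∀ i j, i ≠ j → ∀ u v, u ≠ v → ∀ (p : (T i).Walk u v) (q : (T j).Walk u v), p.IsPath → q.IsPath →
    (∀ e ∈ p.edges, e ∉ q.edges) ∧ (∀ w ∈ p.support, w ∈ q.support → w = u ∨ w = v)

def inner {V : Type} (T : SimpleGraph V) (v : V) : Prop := ∃ a b, a ≠ b ∧ T.Adj v a ∧ T.Adj v b

theorem two_nbrs {V : Type} {T : SimpleGraph V} {u v : V} (p : T.Walk u v) (hp : p.IsPath) (w : V)
    (hw : w ∈ p.support) (hu : w ≠ u) (hv : w ≠ v) : inner T w := by
  induction p with
  | nil =>
    rw [Walk.support_nil, List.mem_singleton] at hw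
    exact absurd hw hu
  | @cons u u' v h q ih =>
    rw [Walk.cons_isPath_iff] at hp
    rw [Walk.support_cons, List.mem_cons] at hw
    rcases hw with hw | hw
    · exact absurd hw hu
    by_cases e : w = u'
    · subst e
      cases q with
      | nil => exact absurd rfl hv
      | @cons _ y _ h' q' =>
        refine ⟨u, y, ?_, h.symm, h'⟩
        rintro rfl
        exact hp.2 (by rw [Walk.support_cons]; exact List.mem_cons_of_mem _ q'.start_mem_support)
    · exact ih hp.1 hw e hv

section A

variable {V : Type} {G : SimpleGraph V} {k : ℕ} (S : CS G (Fin k))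

/-- the graph from which the `i`-th tree is taken -/
def HG (i : Fin k) : SimpleGraph V where
  Adj a b := G.Adj a b ∧ ((S.c a = i ∧ S.c b = i) ∨ (S.c a ≠ i ∧ b = S.φ a i) ∨ (S.c b ≠ i ∧ a = S.φ b i))
  symm := ⟨by
    rintro a b ⟨h1, h2⟩
    refine ⟨h1.symm, ?_⟩
    rcases h2 with h2 | h2 | h2
    · exact Or.inl ⟨h2.2, h2.1⟩
    · exact Or.inr (Or.inr h2)
    · exact Or.inr (Or.inl h2)⟩
  loopless := ⟨by
    rintro a ⟨h1, -⟩
    exact G.loopless.irrefl _ h1⟩

theorem HG_reach (i : Fin k) {a b : V} (h : ReflTransGen (fun a b => G.Adj a b ∧ S.c a = S.c b) a b)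
    (ha : S.c a = i) : (HG S i).Reachable a b ∧ S.c b = i := by
  induction h with
  | refl => exact ⟨Reachable.refl _, ha⟩
  | @tail b c _ h2 ih =>
    have h3 : S.c c = i := by rw [← h2.2]; exact ih.2
    refine ⟨ih.1.trans (Adj.reachable ?_), h3⟩
    exact ⟨h2.1, Or.inl ⟨ih.2, h3⟩⟩

theorem HG_connected [Nonempty V] (i : Fin k) : (HG S i).Connected := by
  have h1 : ∀ u, ∃ u', S.c u' = i ∧ (HG S i).Reachable u u' := by
    intro u
    by_cases e : S.c u = i
    · exact ⟨u, e, Reachable.refl _⟩
    · have e' : i ≠ S.c u := fun h => e h.symm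
      exact ⟨S.φ u i, S.col u i e', Adj.reachable ⟨S.adj u i e', Or.inr (Or.inl ⟨e, rfl⟩)⟩⟩
  rw [connected_iff]
  refine ⟨fun u v => ?_, inferInstance⟩
  obtain ⟨u', hu1, hu2⟩ := h1 u
  obtain ⟨v', hv1, hv2⟩ := h1 v
  exact (hu2.trans (HG_reach S i (S.conn u' v' (by rw [hu1, hv1])) hu1).1).trans hv2.symm

theorem HG_leaf (i : Fin k) {v b : V} (hv : S.c v ≠ i) (h : (HG S i).Adj v b) : b = S.φ v i := by
  rcases h.2 with h2 | h2 | h2
  · exact absurd h2.1 hv
  · exact h2.2
  · exfalso
    apply hv
    rw [h2.2]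
    exact S.col b i (fun e => h2.1 e.symm)

theorem HG_edge (i : Fin k) {a b : V} (h : (HG S i).Adj a b) : S.c a = i ∨ S.c b = i := by
  by_contra hcon
  push Not at hcon
  have h1 := HG_leaf S i hcon.1 h
  apply hcon.2
  rw [h1]
  exact S.col a i (fun e => hcon.1 e.symm)

include S in
theorem exists_cist [Finite V] [Nonempty V] : ∃ T : Fin k → SimpleGraph V, CIST G T := by
  classical
  have h1 : ∀ i, ∃ T : SimpleGraph V, T ≤ HG S i ∧ T.IsTree := fun i =>
    (HG_connected S i).exists_isTree_le
  choose T hT1 hT2 using h1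
  have hcol : ∀ i v, inner (T i) v → S.c v = i := by
    rintro i v ⟨a, b, hab, ha, hb⟩
    by_contra hv
    exact hab ((HG_leaf S i hv (hT1 i ha)).trans (HG_leaf S i hv (hT1 i hb)).symm)
  refine ⟨T, fun i => ⟨fun a b hab => (hT1 i hab).1, hT2 i⟩, ?_⟩
  intro i j hij u v huv p q hp hq
  constructor
  · intro e he1 he2
    induction e using Sym2.ind with
    | _ a b =>
      have ha : (HG S i).Adj a b := hT1 i (p.adj_of_mem_edges he1)
      have hb : (HG S j).Adj a b := hT1 j (q.adj_of_mem_edges he2)
      have key : ∀ a b, (HG S i).Adj a b → (HG S j).Adj a b → S.c a = i → S.c b = j → False := by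
        intro a b h1 h2 h3 h4
        have h5 := HG_leaf S i (by rw [h4]; exact hij.symm) h1.symm
        have h6 := HG_leaf S j (by rw [h3]; exact hij) h2
        have h7 := S.anti a j (by rw [h3]; exact hij.symm)
        rw [← h6, h3] at h7
        exact h7 h5.symm
      rcases HG_edge S i ha with h1 | h1 <;> rcases HG_edge S j hb with h2 | h2
      · exact hij (h1.symm.trans h2)
      · exact key a b ha hb h1 h2
      · exact key b a ha.symm hb.symm h1 h2
      · exact hij (h1.symm.trans h2)
  · intro w hw1 hw2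
    by_contra hcon
    push Not at hcon
    have h1 := hcol i w (two_nbrs p hp w hw1 hcon.1 hcon.2)
    have h2 := hcol j w (two_nbrs q hq w hw2 hcon.1 hcon.2)
    exact hij (h1.symm.trans h2)

end A

section B

variable {V : Type}

/-- connected by a walk which avoids `v` -/
def av (T : SimpleGraph V) (v u w : V) : Prop := ∃ p : T.Walk u w, v ∉ p.support

theorem av_symm {T : SimpleGraph V} {v u w : V} (h : av T v u w) : av T v w u := by
  obtain ⟨p, hp⟩ := h
  exact ⟨p.reverse, by rw [Walk.support_reverse]; simpa using hp⟩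

theorem av_trans {T : SimpleGraph V} {v u w x : V} (h : av T v u w) (h' : av T v w x) : av T v u x := by
  obtain ⟨p, hp⟩ := h
  obtain ⟨q, hq⟩ := h'
  exact ⟨p.append q, by rw [Walk.mem_support_append_iff]; tauto⟩

theorem not_av {T : SimpleGraph V} (hT : T.IsTree) {v a b : V} (hab : a ≠ b) (ha : T.Adj v a) (hb : T.Adj v b) :
    ¬ av T v a b := by
  classical
  rintro ⟨p, hp⟩
  have h1 : (Walk.cons ha.symm (Walk.cons hb Walk.nil)).IsPath := by
    rw [Walk.cons_isPath_iff, Walk.cons_isPath_iff]
    refine ⟨⟨Walk.IsPath.nil, ?_⟩, ?_⟩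
    · simp [hb.ne]
    · simp [ha.ne.symm, hab]
  have h2 := (hT.isAcyclic.subsingleton_path a b).elim p.toPath ⟨_, h1⟩
  have h3 : v ∈ (p.toPath : T.Walk a b).support := by rw [h2]; simp
  exact hp (Walk.support_toPath_subset_support p h3)

variable {G : SimpleGraph V} {k : ℕ} {T : Fin k → SimpleGraph V}

theorem av_or (h : CIST G T) {i j : Fin k} (hij : i ≠ j) {v u w : V} (hu : v ≠ u) (hw : v ≠ w) :
    av (T i) v u w ∨ av (T j) v u w := by
  classical
  by_cases e : u = w
  · subst e
    exact Or.inl ⟨Walk.nil, by simpa using hu⟩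
  by_contra hcon
  push Not at hcon
  obtain ⟨p⟩ := (h.1 i).2.connected u w
  obtain ⟨q⟩ := (h.1 j).2.connected u w
  have h1 : v ∈ (p.toPath : (T i).Walk u w).support := by
    by_contra h1; exact hcon.1 ⟨_, h1⟩
  have h2 : v ∈ (q.toPath : (T j).Walk u w).support := by
    by_contra h2; exact hcon.2 ⟨_, h2⟩
  rcases (h.2 i j hij u w e _ _ p.toPath.2 q.toPath.2).2 v h1 h2 with h3 | h3
  · exact hu h3
  · exact hw h3

theorem inner_unique (h : CIST G T) {i j : Fin k} {v : V} (hi : inner (T i) v) (hj : inner (T j) v) :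
    i = j := by
  by_contra hij
  obtain ⟨a, b, hab, ha, hb⟩ := hi
  obtain ⟨c, d, hcd, hc, hd⟩ := hj
  have n1 := not_av (h.1 i).2 hab ha hb
  have n2 := not_av (h.1 j).2 hcd hc hd
  have h1 : av (T j) v a b := (av_or h hij ha.ne hb.ne).resolve_left n1
  have h2 : av (T i) v c d := (av_or h hij hc.ne hd.ne).resolve_right n2
  by_cases h3 : av (T i) v a c
  · have h4 : av (T i) v a d := av_trans h3 h2
    have h5 : av (T j) v b c := (av_or h hij hb.ne hc.ne).resolve_left
      (fun h5 => n1 (av_trans h3 (av_symm h5)))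
    have h6 : av (T j) v b d := (av_or h hij hb.ne hd.ne).resolve_left
      (fun h6 => n1 (av_trans h4 (av_symm h6)))
    exact n2 (av_trans (av_symm h5) h6)
  · have h4 : av (T j) v a c := (av_or h hij ha.ne hc.ne).resolve_left h3
    have h5 : av (T j) v a d := (av_or h hij ha.ne hd.ne).resolve_left
      (fun h5 => h3 (av_trans h5 (av_symm h2)))
    exact n2 (av_trans (av_symm h4) h5)

theorem edge_unique (h : CIST G T) {i j : Fin k} (hij : i ≠ j) {a b : V} (ha : (T i).Adj a b) :
    ¬ (T j).Adj a b := by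
  intro hb
  have h1 : (Walk.cons ha Walk.nil).IsPath := by
    rw [Walk.cons_isPath_iff]; exact ⟨Walk.IsPath.nil, by simp [ha.ne]⟩
  have h2 : (Walk.cons hb Walk.nil).IsPath := by
    rw [Walk.cons_isPath_iff]; exact ⟨Walk.IsPath.nil, by simp [ha.ne]⟩
  have := (h.2 i j hij a b ha.ne _ _ h1 h2).1 s(a, b) (by simp)
  exact this (by simp)

theorem exists_nbr {T : SimpleGraph V} (hT : T.IsTree) (h3 : ∀ u v : V, ∃ z, z ≠ u ∧ z ≠ v) (v : V) :
    ∃ u, T.Adj v u := by
  obtain ⟨z, hz, -⟩ := h3 v v
  obtain ⟨p⟩ := hT.connected v z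
  cases p with
  | nil => exact absurd rfl hz
  | @cons _ y _ h' q' => exact ⟨y, h'⟩

theorem nbr_inner {T : SimpleGraph V} (hT : T.IsTree) (h3 : ∀ u v : V, ∃ z, z ≠ u ∧ z ≠ v) {v u : V}
    (hv : ¬ inner T v) (hvu : T.Adj v u) : inner T u := by
  by_contra hu
  obtain ⟨z, hz1, hz2⟩ := h3 v u
  obtain ⟨p⟩ := hT.connected v z
  have key : ∀ {x y : V} (p : T.Walk x y), x = v ∨ x = u → y = v ∨ y = u := by
    intro x y p
    induction p with
    | nil => exact id
    | @cons a b c hab q ih =>
      intro hx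
      apply ih
      rcases hx with rfl | rfl
      · right
        by_contra hne
        exact hv ⟨b, u, hne, hab, hvu⟩
      · left
        by_contra hne
        exact hu ⟨b, v, hne, hab, hvu.symm⟩
  rcases key p (Or.inl rfl) with h | h
  · exact hz1 h
  · exact hz2 h

open Classical in
theorem exists_cs (h : CIST G T) (i0 : Fin k) (h3 : ∀ u v : V, ∃ z, z ≠ u ∧ z ≠ v) :
    Nonempty (CS G (Fin k)) := by
  set c : V → Fin k := fun v => if h : ∃ i, inner (T i) v then h.choose else i0 with hc
  have hci : ∀ i v, inner (T i) v → c v = i := by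
    intro i v hi
    have h1 : ∃ i, inner (T i) v := ⟨i, hi⟩
    have h2 : c v = h1.choose := by rw [hc]; dsimp only; rw [dif_pos h1]
    rw [h2]
    exact inner_unique h h1.choose_spec hi
  have hnb : ∀ v (j : Fin k), ∃ u, (T j).Adj v u := fun v j => exists_nbr (h.1 j).2 h3 v
  choose φ hφ using hnb
  have hnin : ∀ v j, j ≠ c v → ¬ inner (T j) v := fun v j hj hi => hj (hci j v hi).symm
  have hcol : ∀ v j, j ≠ c v → c (φ v j) = j := fun v j hj =>
    hci j _ (nbr_inner (h.1 j).2 h3 (hnin v j hj) (hφ v j))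
  refine ⟨⟨c, φ, fun v j hj => (h.1 j).1 (hφ v j), hcol, ?_, ?_⟩⟩
  · intro v j hj e
    have h1 := hφ (φ v j) (c v)
    rw [e] at h1
    exact edge_unique h hj (hφ v j) h1.symm
  · -- connectivity of the classes
    have hsymm : ∀ a b, ReflTransGen (fun a b => G.Adj a b ∧ c a = c b) a b →
        ReflTransGen (fun a b => G.Adj a b ∧ c a = c b) b a := by
      intro a b hab
      induction hab with
      | refl => exact ReflTransGen.refl
      | tail _ h2 ih => exact ReflTransGen.head ⟨h2.1.symm, h2.2.symm⟩ ih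
    have hwalk : ∀ (i : Fin k) (n : ℕ) (u w : V) (p : (T i).Walk u w), p.length ≤ n → inner (T i) u →
        inner (T i) w → ReflTransGen (fun a b => G.Adj a b ∧ c a = c b) u w := by
      intro i n
      induction n with
      | zero =>
        intro u w p hp _ _
        have := Walk.eq_of_length_eq_zero (Nat.le_zero.1 hp)
        rw [this]
      | succ n ih =>
        intro u w p hp hu hw
        cases p with
        | nil => exact ReflTransGen.refl
        | @cons _ x _ hux q =>
          rw [Walk.length_cons] at hp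
          by_cases hx : inner (T i) x
          · exact ReflTransGen.head ⟨(h.1 i).1 hux, by rw [hci i u hu, hci i x hx]⟩
              (ih x w q (by omega) hx hw)
          · cases q with
            | nil => exact absurd hw hx
            | @cons _ y _ hxy q' =>
              rw [Walk.length_cons] at hp
              have hyu : y = u := by
                by_contra hne
                exact hx ⟨y, u, hne, hxy, hux.symm⟩
              subst hyu
              exact ih y w q' (by omega) hu hw
    have hin : ∀ i u, c u = i → ∃ u', inner (T i) u' ∧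
        ReflTransGen (fun a b => G.Adj a b ∧ c a = c b) u u' := by
      intro i u hu
      by_cases h1 : inner (T i) u
      · exact ⟨u, h1, ReflTransGen.refl⟩
      · have h2 := nbr_inner (h.1 i).2 h3 h1 (hφ u i)
        exact ⟨φ u i, h2, ReflTransGen.single ⟨(h.1 i).1 (hφ u i), by rw [hu, hci i _ h2]⟩⟩
    intro u v huv
    obtain ⟨u', hu1, hu2⟩ := hin (c u) u rfl
    obtain ⟨v', hv1, hv2⟩ := hin (c u) v huv.symm
    obtain ⟨p⟩ := (h.1 (c u)).2.connected u' v'
    exact (hu2.trans (hwalk (c u) _ u' v' p le_rfl hu1 hv1)).trans (hsymm _ _ hv2)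

end B

end Pool.Agent.R453.CI
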