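import Pool.Agent.R453.CI.Prod
import Pool.Agent.R453.CI.Tree

/-!
# Hypercubes
-/

set_option autoImplicit false

namespace Pool.Agent.R453.CI

open Relation SimpleGraph

/-- The hypercube with coordinates `ι`: two vertices are adjacent iff they differ in exactly one coordinate. -/
def Q (ι : Type) : SimpleGraph (ι → Bool) where
  Adj x y := ∃ i, x i ≠ y i ∧ ∀ j, j ≠ i → x j = y j
  symm := ⟨by
    rintro x y ⟨t, h1, h2⟩
    exact ⟨t, h1.symm, fun t' ht => (h2 t' ht).symm⟩⟩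
  loopless := ⟨by
    rintro x ⟨t, h1, -⟩
    exact h1 rfl⟩

theorem Q_conn (E : Type) [Fintype E] [DecidableEq E] (u v : E → Bool) : ReflTransGen (Q E).Adj u v := by
  refine pi_conn (fun _ a b => a ≠ b) (Q E).Adj u v (fun t => ?_) ?_
  · by_cases h : u t = v t
    · rw [h]
    · exact ReflTransGen.single h
  · intro z t a b hab _ _ _
    refine ⟨t, ?_, fun t' ht => ?_⟩
    · rw [Function.update_self, Function.update_self]; exact hab
    · rw [Function.update_of_ne ht, Function.update_of_ne ht]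

variable {K : Type}

def cube_congr {ι κ : Type} (e : ι ≃ κ) (S : CS (Q ι) K) : CS (Q κ) K :=
  S.map (e.arrowCongr (Equiv.refl Bool)) (by
    rintro x y ⟨i, h1, h2⟩
    refine ⟨e i, by simpa using h1, fun j hj => ?_⟩
    simp only [Equiv.arrowCongr_apply, Equiv.coe_refl, Function.comp_apply, id]
    exact h2 _ (fun h => hj (by rw [← h, Equiv.apply_symm_apply])))

def cube_sum {ι E : Type} (S : CS (Q ι □ Q E) K) : CS (Q (ι ⊕ E)) K :=
  S.map (Equiv.sumArrowEquivProdArrow ι E Bool).symm (by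
    rintro ⟨x1, x2⟩ ⟨y1, y2⟩ h
    rw [boxProd_adj] at h
    rcases h with ⟨⟨i, h1, h2⟩, h3⟩ | ⟨⟨i, h1, h2⟩, h3⟩
    · dsimp only at h1 h2 h3
      subst h3
      refine ⟨Sum.inl i, by simpa using h1, fun j hj => ?_⟩
      rcases j with j | j
      · simpa using h2 j (fun h => hj (by rw [h]))
      · simp
    · dsimp only at h1 h2 h3
      subst h3
      refine ⟨Sum.inr i, by simpa using h1, fun j hj => ?_⟩
      rcases j with j | j
      · simp
      · simpa using h2 j (fun h => hj (by rw [h])))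

def cube_curry {T ι W : Type} {H : SimpleGraph W} (S : CS (piG T (Q ι) □ H) K) :
    CS (Q (T × ι) □ H) K :=
  S.map ((Equiv.curry T ι Bool).symm.prodCongr (Equiv.refl W)) (by
    rintro ⟨x1, x2⟩ ⟨y1, y2⟩ h
    rw [boxProd_adj] at h ⊢
    rcases h with ⟨⟨t, ⟨i, h1, h2⟩, h4⟩, h3⟩ | ⟨h1, h3⟩
    · left
      refine ⟨⟨(t, i), by simpa using h1, ?_⟩, h3⟩
      rintro ⟨t', j⟩ hj
      by_cases e : t' = t
      · subst e
        have := h2 j (fun h => hj (by rw [h]))
        simpa using this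
      · have := congrFun (h4 t' e) j
        simpa using this
    · right
      dsimp only at h3
      subst h3
      exact ⟨h1, rfl⟩)

def has (n k : ℕ) : Prop := Nonempty (CS (Q (Fin n)) (Fin k))

theorem has_le {n k k' : ℕ} (h : has n k) (h1 : 1 ≤ k') (h2 : k' ≤ k) : has n k' := by
  obtain ⟨S⟩ := h
  refine ⟨S.merge (fun i => ⟨min i.1 (k' - 1), by omega⟩) (fun j => ⟨j.1, by omega⟩) ?_⟩
  intro j
  ext
  dsimp only
  have := j.2
  omega

theorem has_succ {n k : ℕ} (h : has n k) : has (n + 1) k := by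
  obtain ⟨S⟩ := h
  exact ⟨cube_congr (finSumFinEquiv (m := n) (n := 1)) (cube_sum (S.prodW (Q_conn (Fin 1))))⟩

theorem has_one (n : ℕ) : has n 1 := by
  refine ⟨⟨fun _ => 0, fun v _ => v, ?_, ?_, ?_, ?_⟩⟩
  · intro v j hj; exact absurd (Subsingleton.elim _ _) hj
  · intro v j hj; exact absurd (Subsingleton.elim _ _) hj
  · intro v j hj; exact absurd (Subsingleton.elim _ _) hj
  · intro u v _
    exact rmono (fun a b hab => ⟨hab, rfl⟩) (Q_conn (Fin n) u v)

theorem card_K' (ℓ s : ℕ) [Fact ℓ.Prime] (hs : 3 ≤ s) [NeZero s] :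
    Nat.card (K' ℓ s) = ℓ ^ 2 * (s - 2) := by
  classical
  have e : K' ℓ s ≃ (ZMod ℓ × ZMod ℓ) × {b : ZMod s // ok b} :=
    { toFun := fun x => (x.1.1, ⟨x.1.2, x.2⟩)
      invFun := fun y => ⟨(y.1, y.2.1), y.2.2⟩
      left_inv := fun x => rfl
      right_inv := fun y => rfl }
  rw [Nat.card_congr e, Nat.card_prod, Nat.card_prod, Nat.card_eq_fintype_card, ZMod.card]
  have h1 : Nat.card {b : ZMod s // ok b} = s - 2 := by
    have h2 : Fintype.card {b : ZMod s // ok b} = ((Finset.univ.erase (0 : ZMod s)).erase 1).card := by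
      rw [Fintype.card_subtype]
      congr 1
      ext b
      rw [Finset.mem_filter, Finset.mem_erase, Finset.mem_erase]
      unfold ok
      have := Finset.mem_univ b
      tauto
    rw [Nat.card_eq_fintype_card, h2]
    have : Fact (1 < s) := ⟨by omega⟩
    rw [Finset.card_erase_of_mem, Finset.card_erase_of_mem (Finset.mem_univ _), Finset.card_univ, ZMod.card]
    · omega
    · simp
  rw [h1]
  ring

theorem has_prod {m k ℓ s e : ℕ} (h : has m k) (hℓ : ℓ.Prime) (hs : 3 ≤ s) (hk : ℓ * s ≤ k)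
    (he : ℓ ^ 2 * (s - 2) ≤ 2 ^ e) : has ((ℓ + 1) * m + e) (ℓ ^ 2 * (s - 2)) := by
  classical
  have : Fact ℓ.Prime := ⟨hℓ⟩
  have : NeZero s := ⟨by omega⟩
  have hℓ0 := hℓ.pos
  obtain ⟨S⟩ := has_le h (Nat.mul_pos hℓ0 (by omega)) hk
  -- colours
  have hcard : Fintype.card (Col ℓ s) = ℓ * s := by
    rw [Fintype.card_prod, ZMod.card, ZMod.card]
  have eC : Fin (ℓ * s) ≃ Col ℓ s := (Fintype.equivFinOfCardEq hcard).symm
  have S1 : CS (Q (Fin m)) (Col ℓ s) := S.merge eC eC.symm (fun j => by simp)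
  have hK := card_K' ℓ s hs
  have hKpos : 0 < ℓ ^ 2 * (s - 2) := Nat.mul_pos (by positivity) (by omega)
  have hKne : Nonempty (K' ℓ s) := by
    rw [← hK] at hKpos
    exact (Nat.card_pos_iff.1 hKpos).1
  have hemb : Nonempty (K' ℓ s ↪ (Fin e → Bool)) := by
    apply Function.Embedding.nonempty_of_card_le
    rw [← Nat.card_eq_fintype_card, hK, Fintype.card_fun, Fintype.card_bool, Fintype.card_fin]
    exact he
  obtain ⟨ι⟩ := hemb
  have S2 : CS (piG (Option (ZMod ℓ)) (Q (Fin m)) □ Q (Fin e)) (K' ℓ s) :=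
    S1.prod (Q_conn (Fin e)) (Function.invFun ι) ι (Function.leftInverse_invFun ι.injective)
  have S3 := cube_sum (cube_curry S2)
  have hc2 : Fintype.card ((Option (ZMod ℓ) × Fin m) ⊕ Fin e) = (ℓ + 1) * m + e := by
    rw [Fintype.card_sum, Fintype.card_prod, Fintype.card_option, ZMod.card, Fintype.card_fin, Fintype.card_fin]
  have S4 := cube_congr (Fintype.equivFinOfCardEq hc2) S3
  have eK : K' ℓ s ≃ Fin (ℓ ^ 2 * (s - 2)) := Fintype.equivFinOfCardEq (by
    rw [← Nat.card_eq_fintype_card, hK])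
  exact ⟨S4.merge eK eK.symm (fun j => by simp)⟩

theorem has_bound {n k : ℕ} (h : has n k) : k ≤ n + 1 := by
  classical
  obtain ⟨S⟩ := h
  rcases Nat.eq_zero_or_pos k with hk | hk
  · omega
  set v : Fin n → Bool := fun _ => false
  have h1 : ∀ j : {j : Fin k // j ≠ S.c v}, ∃ i, v i ≠ S.φ v j.1 i ∧ ∀ i', i' ≠ i → v i' = S.φ v j.1 i' :=
    fun j => S.adj v j.1 j.2
  choose F hF1 hF2 using h1
  have hinj : Function.Injective F := by
    intro j j' hjj
    have h2 : S.φ v j.1 = S.φ v j'.1 := by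
      funext i
      by_cases e : i = F j
      · have h3 := hF1 j
        have h4 := hF1 j'
        rw [← hjj, ← e] at h4
        rw [← e] at h3
        have h8 : ∀ a b c : Bool, a ≠ b → a ≠ c → b = c := by decide
        exact h8 _ _ _ h3 h4
      · rw [← hF2 j i e, ← hF2 j' i (by rw [← hjj]; exact e)]
    apply Subtype.ext
    rw [← S.col v j.1 j.2, ← S.col v j'.1 j'.2, h2]
  have h2 := Fintype.card_le_of_injective F hinj
  rw [Fintype.card_fin, Fintype.card_subtype_compl, Fintype.card_fin, Fintype.card_subtype_eq] at h2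
  omega

/-- `f n`: the largest number of completely independent spanning trees of the hypercube `Q_n`. -/
noncomputable def f (n : ℕ) : ℕ :=
  sSup {k | ∃ T : Fin k → SimpleGraph (Fin n → Bool), CIST (Q (Fin n)) T}

theorem third {n : ℕ} (hn : 2 ≤ n) (u v : Fin n → Bool) : ∃ z, z ≠ u ∧ z ≠ v := by
  classical
  have h1 : ({u, v} : Finset (Fin n → Bool)).card < Fintype.card (Fin n → Bool) := by
    have h2 : ({u, v} : Finset (Fin n → Bool)).card ≤ 2 := Finset.card_le_two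
    have h3 : Fintype.card (Fin n → Bool) = 2 ^ n := by
      rw [Fintype.card_fun, Fintype.card_bool, Fintype.card_fin]
    have h4 : 2 ^ 2 ≤ 2 ^ n := Nat.pow_le_pow_right (by norm_num) hn
    omega
  obtain ⟨z, hz⟩ := Finset.exists_mem_notMem_of_card_lt_card (s := {u, v}) (t := Finset.univ) (by
    rw [Finset.card_univ]; exact h1)
  refine ⟨z, fun h => hz.2 (by simp [h]), fun h => hz.2 (by simp [h])⟩

theorem mem_iff {n : ℕ} (hn : 2 ≤ n) (k : ℕ) (hk : 1 ≤ k) :
    (∃ T : Fin k → SimpleGraph (Fin n → Bool), CIST (Q (Fin n)) T) ↔ has n k := by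
  constructor
  · rintro ⟨T, hT⟩
    exact exists_cs hT ⟨0, hk⟩ (third hn)
  · rintro ⟨S⟩
    exact exists_cist S

theorem f_bdd {n : ℕ} (hn : 2 ≤ n) :
    BddAbove {k | ∃ T : Fin k → SimpleGraph (Fin n → Bool), CIST (Q (Fin n)) T} := by
  refine ⟨n + 1, fun k hk => ?_⟩
  rcases Nat.eq_zero_or_pos k with h | h
  · omega
  · exact has_bound ((mem_iff hn k h).1 hk)

theorem le_f {n k : ℕ} (hn : 2 ≤ n) (hk : 1 ≤ k) (h : has n k) : k ≤ f n :=
  le_csSup (f_bdd hn) ((mem_iff hn k hk).2 h)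

theorem one_le_f {n : ℕ} (hn : 2 ≤ n) : 1 ≤ f n := le_f hn le_rfl (has_one n)

theorem has_f {n : ℕ} (hn : 2 ≤ n) : has n (f n) := by
  have h1 : f n ∈ {k | ∃ T : Fin k → SimpleGraph (Fin n → Bool), CIST (Q (Fin n)) T} :=
    Nat.sSup_mem ⟨1, (mem_iff hn 1 le_rfl).2 (has_one n)⟩ (f_bdd hn)
  exact (mem_iff hn _ (one_le_f hn)).1 h1

theorem f_le {n : ℕ} (hn : 2 ≤ n) : f n ≤ n + 1 := has_bound (has_f hn)

theorem f_mono {n : ℕ} (hn : 2 ≤ n) : f n ≤ f (n + 1) :=
  le_f (by omega) (one_le_f hn) (has_succ (has_f hn))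

theorem f_prod {m ℓ s e : ℕ} (hm : 2 ≤ m) (hℓ : ℓ.Prime) (hs : 3 ≤ s) (hk : ℓ * s ≤ f m)
    (he : ℓ ^ 2 * (s - 2) ≤ 2 ^ e) : ℓ ^ 2 * (s - 2) ≤ f ((ℓ + 1) * m + e) := by
  refine le_f ?_ ?_ (has_prod (has_f hm) hℓ hs hk he)
  · have := Nat.mul_le_mul (show 1 ≤ ℓ + 1 by omega) hm
    omega
  · exact Nat.mul_pos (by have := hℓ.pos; positivity) (by omega)

end Pool.Agent.R453.CI
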