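import Mathlib

/-!
# Colourings with choices

`CS G K`: a colouring `c` of the vertices of `G` by `K` and, for every vertex `v` and every colour `j ≠ c v`,
a neighbour `φ v j` of colour `j`, such that no edge is chosen from both of its ends, and every colour class is
connected.  (A finite graph has `k ≥ 1` completely independent spanning trees iff it has such a colouring with
`k` colours, up to trivialities.)
-/

set_option autoImplicit false

namespace Pool.Agent.R453.CI

open Relation

theorem rlift {α β : Type} {r : α → α → Prop} {p : β → β → Prop} (f : α → β)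
    (h : ∀ a b, r a b → p (f a) (f b)) {a b : α} (hab : ReflTransGen r a b) :
    ReflTransGen p (f a) (f b) := by
  induction hab with
  | refl => exact ReflTransGen.refl
  | tail _ h2 ih => exact ih.tail (h _ _ h2)

theorem rmono {α : Type} {r p : α → α → Prop} (h : ∀ a b, r a b → p a b) {a b : α}
    (hab : ReflTransGen r a b) : ReflTransGen p a b := rlift id h hab

structure CS {V : Type} (G : SimpleGraph V) (K : Type) where
  c : V → K
  φ : V → K → V
  adj : ∀ v j, j ≠ c v → G.Adj v (φ v j)
  col : ∀ v j, j ≠ c v → c (φ v j) = j
  anti : ∀ v j, j ≠ c v → φ (φ v j) (c v) ≠ v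
  conn : ∀ u v, c u = c v → ReflTransGen (fun a b => G.Adj a b ∧ c a = c b) u v

variable {V V' W K K' : Type}

/-- merging colours -/
def CS.merge {G : SimpleGraph V} (S : CS G K) (π : K → K') (σ : K' → K) (h : ∀ j, π (σ j) = j) :
    CS G K' where
  c v := π (S.c v)
  φ v j := S.φ v (σ j)
  adj v j hj := S.adj v (σ j) (fun e => hj (by rw [← e, h]))
  col v j hj := by
    rw [S.col v (σ j) (fun e => hj (by rw [← e, h])), h]
  anti v j hj := by
    have h1 : σ j ≠ S.c v := fun e => hj (by rw [← e, h])
    by_cases h2 : σ (π (S.c v)) = S.c v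
    · rw [h2]; exact S.anti v _ h1
    · intro h3
      have h4 : σ (π (S.c v)) ≠ S.c (S.φ v (σ j)) := by
        rw [S.col v (σ j) h1]
        intro h5
        apply hj
        have := congrArg π h5
        rw [h, h] at this
        exact this.symm
      have h5 := S.col (S.φ v (σ j)) _ h4
      rw [h3] at h5
      exact h2 h5.symm
  conn u v huv := by
    by_cases h1 : S.c u = S.c v
    · exact rmono (fun a b hab => ⟨hab.1, by rw [hab.2]⟩) (S.conn u v h1)
    · have h2 : S.c v ≠ S.c u := fun e => h1 e.symm
      refine ReflTransGen.head (b := S.φ u (S.c v)) ⟨S.adj u _ h2, ?_⟩ ?_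
      · rw [S.col u _ h2]; exact huv
      · exact rmono (fun a b hab => ⟨hab.1, by rw [hab.2]⟩) (S.conn _ _ (S.col u _ h2))

/-- transport along a bijection which preserves adjacency -/
def CS.map {G : SimpleGraph V} {G' : SimpleGraph V'} (S : CS G K) (e : V ≃ V')
    (h : ∀ a b, G.Adj a b → G'.Adj (e a) (e b)) : CS G' K where
  c v := S.c (e.symm v)
  φ v j := e (S.φ (e.symm v) j)
  adj v j hj := by
    have := h _ _ (S.adj (e.symm v) j hj)
    simpa using this
  col v j hj := by simpa using S.col (e.symm v) j hj
  anti v j hj := by
    intro h1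
    apply S.anti (e.symm v) j hj
    apply e.injective
    simpa using h1
  conn u v huv := by
    have h1 := S.conn (e.symm u) (e.symm v) huv
    have h2 := rlift (p := fun a b => G'.Adj a b ∧ S.c (e.symm a) = S.c (e.symm b)) e
      (fun a b hab => ⟨h _ _ hab.1, by simpa using hab.2⟩) h1
    simpa using h2

theorem CS.exists_col {G : SimpleGraph V} [Nonempty V] (S : CS G K) (j : K) : ∃ v, S.c v = j := by
  obtain ⟨v⟩ := (inferInstance : Nonempty V)
  by_cases h : j = S.c v
  · exact ⟨v, h.symm⟩
  · exact ⟨_, S.col v j h⟩

/-- Product with a connected graph. -/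
def CS.prodW {G : SimpleGraph V} {H : SimpleGraph W} (S : CS G K)
    (hH : ∀ u v, ReflTransGen H.Adj u v) : CS (G □ H) K where
  c v := S.c v.1
  φ v j := (S.φ v.1 j, v.2)
  adj v j hj := by
    rw [SimpleGraph.boxProd_adj]
    exact Or.inl ⟨S.adj _ _ hj, rfl⟩
  col v j hj := S.col v.1 j hj
  anti v j hj := by
    intro h
    exact S.anti v.1 j hj (congrArg Prod.fst h)
  conn u v huv := by
    obtain ⟨u1, u2⟩ := u
    obtain ⟨v1, v2⟩ := v
    have h1 : ReflTransGen (fun a b : V × W => (G □ H).Adj a b ∧ S.c a.1 = S.c b.1) (u1, u2) (v1, u2) :=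
      rlift (f := fun a => ((a, u2) : V × W))
        (fun a b hab => ⟨by rw [SimpleGraph.boxProd_adj]; exact Or.inl ⟨hab.1, rfl⟩, hab.2⟩)
        (S.conn u1 v1 huv)
    have h2 : ReflTransGen (fun a b : V × W => (G □ H).Adj a b ∧ S.c a.1 = S.c b.1) (v1, u2) (v1, v2) :=
      rlift (f := fun a => ((v1, a) : V × W))
        (fun a b hab => ⟨by rw [SimpleGraph.boxProd_adj]; exact Or.inr ⟨hab, rfl⟩, rfl⟩) (hH u2 v2)
    exact h1.trans h2

/-- the graph on functions: change exactly one value, along an edge -/
def piG (T : Type) (G : SimpleGraph V) : SimpleGraph (T → V) where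
  Adj x y := ∃ t, G.Adj (x t) (y t) ∧ ∀ t', t' ≠ t → x t' = y t'
  symm := ⟨by
    rintro x y ⟨t, h1, h2⟩
    exact ⟨t, h1.symm, fun t' ht => (h2 t' ht).symm⟩⟩
  loopless := ⟨by
    rintro x ⟨t, h1, -⟩
    exact G.loopless.irrefl _ h1⟩

/-- coordinatewise connections -/
theorem pi_conn {T : Type} [Fintype T] [DecidableEq T] {Y : Type} (r : T → Y → Y → Prop)
    (R : (T → Y) → (T → Y) → Prop)
    (x y : T → Y) (h : ∀ t, ReflTransGen (r t) (x t) (y t))
    (hR : ∀ (z : T → Y) (t : T) (a b : Y), r t a b →
      (∀ t', t' ≠ t → z t' = x t' ∨ z t' = y t') →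
      ReflTransGen (r t) (x t) a → ReflTransGen (r t) b (y t) →
      R (Function.update z t a) (Function.update z t b)) :
    ReflTransGen R x y := by
  classical
  have key : ∀ s : Finset T, ReflTransGen R x (fun t => if t ∈ s then y t else x t) := by
    intro s
    induction s using Finset.induction_on with
    | empty => simp only [Finset.notMem_empty, if_false]; exact ReflTransGen.refl
    | insert t s ht ih =>
      refine ih.trans ?_
      set z : T → Y := fun t => if t ∈ s then y t else x t with hz
      have h1 : z = Function.update z t (x t) := by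
        funext t'
        by_cases e : t' = t
        · subst e; simp [hz, ht]
        · rw [Function.update_of_ne e]
      have h2 : (fun t' => if t' ∈ insert t s then y t' else x t') = Function.update z t (y t) := by
        funext t'
        by_cases e : t' = t
        · subst e; simp
        · rw [Function.update_of_ne e]; simp [hz, e]
      rw [h2]
      conv_lhs => rw [h1]
      have h3 : ∀ b, ReflTransGen (r t) (x t) b → ReflTransGen (r t) b (y t) →
          ReflTransGen R (Function.update z t (x t)) (Function.update z t b) := by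
        intro b hb
        induction hb with
        | refl => intro _; exact ReflTransGen.refl
        | tail hab hbc ih2 =>
          intro hcy
          refine (ih2 (ReflTransGen.head hbc hcy)).tail ?_
          refine hR z t _ _ hbc (fun t' ht' => ?_) hab hcy
          by_cases e : t' ∈ s
          · right; simp [hz, e]
          · left; simp [hz, e]
      exact h3 _ (h t) ReflTransGen.refl
  have := key Finset.univ
  simpa using this

end Pool.Agent.R453.CI
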