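import Pool.Agent.Cov.PNT

/-!
# The limit lemma
-/

set_option autoImplicit false

namespace Pool.Agent.R453.CI

open Filter Topology

/-- There is a prime in `(x, (1+η) x]` for large `x`. -/
theorem prime_short {η : ℝ} (hη : 0 < η) :
    ∀ᶠ x : ℝ in atTop, ∃ p : ℕ, p.Prime ∧ x < (p : ℝ) ∧ (p : ℝ) ≤ (1 + η) * x := by
  have h1 := Pool.Agent.Cov.PNT.theta_div_tendsto
  have h2 : Tendsto (fun x : ℝ => Chebyshev.theta ((1 + η) * x) / ((1 + η) * x)) atTop (𝓝 1) :=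
    h1.comp (tendsto_id.const_mul_atTop (by positivity))
  have h3 : Tendsto (fun x : ℝ => (1 + η) * (Chebyshev.theta ((1 + η) * x) / ((1 + η) * x)) -
      Chebyshev.theta x / x) atTop (𝓝 ((1 + η) * 1 - 1)) := (h2.const_mul _).sub h1
  have h4 : ∀ᶠ x : ℝ in atTop, 0 < (1 + η) * (Chebyshev.theta ((1 + η) * x) / ((1 + η) * x)) -
      Chebyshev.theta x / x := h3.eventually (lt_mem_nhds (by linarith))
  filter_upwards [h4, eventually_gt_atTop 0] with x hx hx0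
  by_contra hcon
  push Not at hcon
  have h5 : Chebyshev.theta ((1 + η) * x) ≤ Chebyshev.theta x := by
    unfold Chebyshev.theta
    apply Finset.sum_le_sum_of_subset_of_nonneg
    · intro p hp
      rw [Finset.mem_filter, Finset.mem_Ioc] at hp ⊢
      refine ⟨⟨hp.1.1, ?_⟩, hp.2⟩
      rw [Nat.le_floor_iff hx0.le]
      by_contra hlt
      have h6 := hcon p hp.2 (not_le.1 hlt)
      have h7 := (Nat.le_floor_iff (by positivity)).1 hp.1.2
      linarith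
    · intro p hp _
      rw [Finset.mem_filter, Finset.mem_Ioc] at hp
      exact Real.log_nonneg (by exact_mod_cast hp.1.1)
  have h8 : (1 + η) * (Chebyshev.theta ((1 + η) * x) / ((1 + η) * x)) =
      Chebyshev.theta ((1 + η) * x) / x := by
    field_simp
  rw [h8, ← sub_div] at hx
  have h9 : 0 < Chebyshev.theta ((1 + η) * x) - Chebyshev.theta x := by
    by_contra hle
    have := div_nonpos_of_nonpos_of_nonneg (not_lt.1 hle) hx0.le
    linarith
  linarith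

section

variable (f : ℕ → ℕ)
  (h1 : ∀ n, 2 ≤ n → f n ≤ f (n + 1)) (h2 : ∀ n, 2 ≤ n → f n ≤ n + 1)
  (h3 : ∀ m ℓ s e, 2 ≤ m → ℓ.Prime → 3 ≤ s → ℓ * s ≤ f m → ℓ ^ 2 * (s - 2) ≤ 2 ^ e →
    ℓ ^ 2 * (s - 2) ≤ f ((ℓ + 1) * m + e))

include h1 in
theorem mono2 (a b : ℕ) (ha : 2 ≤ a) (hab : a ≤ b) : f a ≤ f b := by
  induction b, hab using Nat.le_induction with
  | base => exact le_rfl
  | succ n hn ih => exact ih.trans (h1 n (by omega))

theorem pow_bound (m : ℕ) (hm : 5 ≤ m) : m * (m + 1) ≤ 2 ^ m := by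
  induction m, hm using Nat.le_induction with
  | base => norm_num
  | succ n hn ih =>
    rw [pow_succ]
    nlinarith

include h2 h3 in
theorem step (m ℓ : ℕ) (hm : 5 ≤ m) (hℓ : ℓ.Prime) :
    (ℓ : ℝ) * f m - 3 * (ℓ : ℝ) ^ 2 ≤ f ((ℓ + 2) * m) := by
  have hℓ0 := hℓ.pos
  set s := f m / ℓ with hs
  have e1 : ℓ * s ≤ f m := Nat.mul_div_le _ _
  have e2 : f m < ℓ * (s + 1) := by
    have := Nat.lt_mul_div_succ (f m) hℓ0
    simpa using this
  have e2' : (f m : ℝ) ≤ ℓ * (s + 1) := by exact_mod_cast e2.le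
  by_cases h : 3 ≤ s
  · have e3 : ℓ ^ 2 * (s - 2) ≤ 2 ^ m ∨ ¬ ℓ ≤ f m := by
      left
      have e4 : ℓ ≤ f m := le_trans (by nlinarith) e1
      have e5 : ℓ ^ 2 * (s - 2) ≤ ℓ * (ℓ * s) := by
        rw [pow_two, mul_assoc]
        exact Nat.mul_le_mul_left _ (Nat.mul_le_mul_left _ (by omega))
      have e6 := h2 m (by omega)
      have e7 := pow_bound m hm
      have e8 : ℓ * 3 ≤ f m := le_trans (Nat.mul_le_mul_left _ h) e1
      have e9 : ℓ ≤ m := by omega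
      calc ℓ ^ 2 * (s - 2) ≤ ℓ * (ℓ * s) := e5
        _ ≤ m * (m + 1) := Nat.mul_le_mul e9 (e1.trans e6)
        _ ≤ 2 ^ m := e7
    have e3' : ℓ ^ 2 * (s - 2) ≤ 2 ^ m := by
      rcases e3 with e3 | e3
      · exact e3
      · exact absurd (le_trans (by nlinarith) e1) e3
    have e10 := h3 m ℓ s m (by omega) hℓ h e1 e3'
    have e11 : (ℓ + 1) * m + m = (ℓ + 2) * m := by ring
    rw [e11] at e10
    have e12 : ((ℓ ^ 2 * (s - 2) : ℕ) : ℝ) ≤ f ((ℓ + 2) * m) := by exact_mod_cast e10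
    rw [Nat.cast_mul, Nat.cast_sub (by omega)] at e12
    push_cast at e12
    have hℓr : (0 : ℝ) < ℓ := by exact_mod_cast hℓ0
    nlinarith
  · have e4 : (s : ℝ) ≤ 2 := by exact_mod_cast (by omega : s ≤ 2)
    have e5 : (0 : ℝ) ≤ f ((ℓ + 2) * m) := Nat.cast_nonneg _
    have hℓr : (0 : ℝ) < ℓ := by exact_mod_cast hℓ0
    have e6 : (f m : ℝ) ≤ ℓ * 3 := e2'.trans (by nlinarith)
    nlinarith

/-- the potential -/
noncomputable def pot (m : ℕ) : ℝ := (f m : ℝ) / m - 20 / √(m : ℝ)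

include h2 in
theorem g_le (m : ℕ) (hm : 2 ≤ m) : (f m : ℝ) / m ≤ 2 := by
  have hm0 : (0 : ℝ) < m := by exact_mod_cast (by omega : 0 < m)
  rw [div_le_iff₀ hm0]
  have : (f m : ℝ) ≤ m + 1 := by exact_mod_cast h2 m hm
  have h1 : (1 : ℝ) ≤ m := by exact_mod_cast (by omega : 1 ≤ m)
  linarith

include h2 h3 in
theorem chain (m : ℕ) (hm : 5 ≤ m) :
    ∃ m' : ℕ, m < m' ∧ (m' : ℝ) ≤ 4 * m * √(m : ℝ) ∧ pot f m ≤ pot f m' := by
  have hm0 : (0 : ℝ) < m := by exact_mod_cast (by omega : 0 < m)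
  have hr0 : Nat.sqrt m ≠ 0 := by
    rw [Ne, Nat.sqrt_eq_zero]; omega
  obtain ⟨ℓ, hℓ, hℓ1, hℓ2⟩ := Nat.exists_prime_lt_and_le_two_mul (Nat.sqrt m) hr0
  set r : ℝ := √(m : ℝ) with hr
  have hr2 : r ^ 2 = m := Real.sq_sqrt hm0.le
  have hr1 : (2 : ℝ) ≤ r := by
    rw [hr]; apply Real.le_sqrt_of_sq_le
    have : (5 : ℝ) ≤ m := by exact_mod_cast hm
    linarith
  have hrpos : 0 < r := by linarith
  -- ℓ > √m
  have hL1 : r ≤ ℓ := by
    have e1 : m < (Nat.sqrt m + 1) * (Nat.sqrt m + 1) := Nat.lt_succ_sqrt m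
    have e2 : m < ℓ * ℓ := lt_of_lt_of_le e1 (Nat.mul_le_mul hℓ1 hℓ1)
    have e3 : (m : ℝ) < (ℓ : ℝ) * ℓ := by exact_mod_cast e2
    have e4 : (0 : ℝ) ≤ ℓ := Nat.cast_nonneg _
    nlinarith
  have hL2 : (ℓ : ℝ) ≤ 2 * r := by
    have e1 : Nat.sqrt m * Nat.sqrt m ≤ m := Nat.sqrt_le m
    have e2 : ((Nat.sqrt m : ℕ) : ℝ) * (Nat.sqrt m : ℕ) ≤ m := by exact_mod_cast e1
    have e3 : ((Nat.sqrt m : ℕ) : ℝ) ≤ r := by
      have e4 : (0 : ℝ) ≤ ((Nat.sqrt m : ℕ) : ℝ) := Nat.cast_nonneg _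
      nlinarith
    have e5 : (ℓ : ℝ) ≤ 2 * (Nat.sqrt m : ℕ) := by exact_mod_cast hℓ2
    linarith
  have hLpos : (0 : ℝ) < ℓ := by linarith
  have hstep := step f h2 h3 m ℓ hm hℓ
  refine ⟨(ℓ + 2) * m, ?_, ?_, ?_⟩
  · have := hℓ.pos
    nlinarith
  · push_cast
    nlinarith
  · unfold pot
    push_cast
    have hg2 := g_le f h2 m (by omega)
    have e1 : ((ℓ : ℝ) * f m - 3 * (ℓ : ℝ) ^ 2) / ((ℓ + 2) * m) ≤
        (f ((ℓ + 2) * m) : ℝ) / ((ℓ + 2) * m) := by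
      apply div_le_div_of_nonneg_right hstep (by positivity)
    have e2 : ((ℓ : ℝ) * f m - 3 * (ℓ : ℝ) ^ 2) / ((ℓ + 2) * m) =
        (f m : ℝ) / m - (f m : ℝ) / m * (2 / (ℓ + 2)) - 3 * (ℓ : ℝ) ^ 2 / ((ℓ + 2) * m) := by
      field_simp
      ring
    have e3 : (f m : ℝ) / m * (2 / (ℓ + 2)) ≤ 4 / r := by
      calc (f m : ℝ) / m * (2 / (ℓ + 2)) ≤ 2 * (2 / r) := by
            apply mul_le_mul hg2 _ (by positivity) (by norm_num)
            apply div_le_div_of_nonneg_left (by norm_num) hrpos (by linarith)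
        _ = 4 / r := by ring
    have e4 : 3 * (ℓ : ℝ) ^ 2 / ((ℓ + 2) * m) ≤ 6 / r := by
      rw [div_le_div_iff₀ (by positivity) hrpos, ← hr2]
      have e5 : (ℓ : ℝ) * r ≤ 2 * r ^ 2 := by nlinarith
      have e6 : 0 ≤ (ℓ : ℝ) * r := by positivity
      nlinarith [mul_nonneg hLpos.le (sub_nonneg.2 e5), sq_nonneg r]
    have e7 : 20 / √(((ℓ : ℝ) + 2) * m) ≤ 10 / r := by
      have e8 : 2 * r ≤ √(((ℓ : ℝ) + 2) * m) := by
        apply Real.le_sqrt_of_sq_le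
        rw [mul_pow, hr2]
        nlinarith
      rw [div_le_div_iff₀ (by linarith) hrpos]
      linarith
    have e9 : 4 / r + 6 / r + 10 / r = 20 / r := by ring
    linarith

include h1 h2 h3 in
theorem lower (c c2 : ℝ) (hc : c < c2) (hc0 : 0 ≤ c)
    (hfr : ∀ M : ℕ, ∃ m, M ≤ m ∧ c2 < (f m : ℝ) / m) :
    ∃ N0 : ℕ, ∀ N : ℕ, N0 ≤ N → c ≤ (f N : ℝ) / N := by
  -- constants
  set δ : ℝ := (c2 - c) / 4 with hδ
  have hδ0 : 0 < δ := by rw [hδ]; linarith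
  set η : ℝ := min (δ / 4) (1 / 4) with hη
  have hη0 : 0 < η := by rw [hη]; positivity
  have hη1 : η ≤ 1 / 4 := min_le_right _ _
  have hη2 : 4 * η ≤ δ := by have : η ≤ δ / 4 := min_le_left _ _; linarith
  obtain ⟨y0, hy0⟩ := eventually_atTop.1 (prime_short hη0)
  -- A
  obtain ⟨A, hA⟩ := exists_nat_gt (max (max (2 * |y0| + 2) (2 / η)) 4)
  have hA1 : 2 * |y0| + 2 < A := lt_of_le_of_lt (le_trans (le_max_left _ _) (le_max_left _ _)) hA
  have hA2 : 2 / η < A := lt_of_le_of_lt (le_trans (le_max_right _ _) (le_max_left _ _)) hA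
  have hA3 : (4 : ℝ) < A := lt_of_le_of_lt (le_max_right _ _) hA
  -- M
  obtain ⟨M, hM⟩ := exists_nat_gt (max (max ((20 / δ) ^ 2) ((48 * (A : ℝ) ^ 2 / δ) ^ 2)) (max 5 ((4 * (A : ℝ)) ^ 2)))
  have hM1 : (20 / δ) ^ 2 < M := lt_of_le_of_lt (le_trans (le_max_left _ _) (le_max_left _ _)) hM
  have hM2 : (48 * (A : ℝ) ^ 2 / δ) ^ 2 < M := lt_of_le_of_lt (le_trans (le_max_right _ _) (le_max_left _ _)) hM
  have hM3 : (5 : ℝ) < M := lt_of_le_of_lt (le_trans (le_max_left _ _) (le_max_right _ _)) hM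
  have hM4 : (4 * (A : ℝ)) ^ 2 < M := lt_of_le_of_lt (le_trans (le_max_right _ _) (le_max_right _ _)) hM
  obtain ⟨m0, hm0, hm0'⟩ := hfr M
  have hM5 : 5 < M := by exact_mod_cast hM3
  have hsq : ∀ m : ℕ, M ≤ m → 20 / √(m : ℝ) ≤ δ ∧ 48 * (A : ℝ) ^ 2 / √(m : ℝ) ≤ δ ∧ 4 * (A : ℝ) ≤ √(m : ℝ) := by
    intro m hm
    have hmr : (M : ℝ) ≤ m := by exact_mod_cast hm
    have hpos : 0 < √(m : ℝ) := Real.sqrt_pos.2 (by linarith)
    refine ⟨?_, ?_, ?_⟩
    · rw [div_le_iff₀ hpos, ← div_le_iff₀' hδ0]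
      apply Real.le_sqrt_of_sq_le; linarith
    · rw [div_le_iff₀ hpos, ← div_le_iff₀' hδ0]
      apply Real.le_sqrt_of_sq_le; linarith
    · apply Real.le_sqrt_of_sq_le; linarith
  refine ⟨A * m0, fun N hN => ?_⟩
  classical
  set S : Finset ℕ := (Finset.range (N + 1)).filter (fun m => M ≤ m ∧ c2 - δ ≤ pot f m ∧ A * m ≤ N) with hS
  have hA0 : 0 < A := by
    have : (0 : ℝ) < A := by linarith
    exact_mod_cast this
  have hSne : S.Nonempty := by
    refine ⟨m0, ?_⟩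
    rw [hS, Finset.mem_filter, Finset.mem_range]
    refine ⟨?_, hm0, ?_, hN⟩
    · have : m0 ≤ A * m0 := Nat.le_mul_of_pos_left _ hA0
      omega
    · unfold pot
      have := (hsq m0 hm0).1
      linarith
  set m := S.max' hSne with hm
  have hmS : m ∈ S := Finset.max'_mem _ _
  rw [hS, Finset.mem_filter, Finset.mem_range] at hmS
  obtain ⟨-, hmM, hmpot, hmA⟩ := hmS
  obtain ⟨q1, q2, q3⟩ := hsq m hmM
  have hm5 : 5 ≤ m := by omega
  have hmr0 : (0 : ℝ) < m := by exact_mod_cast (by omega : 0 < m)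
  obtain ⟨m', hm'1, hm'2, hm'3⟩ := chain f h2 h3 m hm5
  have hm'A : N < A * m' := by
    by_contra hcon
    push Not at hcon
    have h4 : m' ∈ S := by
      rw [hS, Finset.mem_filter, Finset.mem_range]
      refine ⟨?_, by omega, hmpot.trans hm'3, hcon⟩
      have : m' ≤ A * m' := Nat.le_mul_of_pos_left _ hA0
      omega
    have := Finset.le_max' S m' h4
    omega
  set r : ℝ := √(m : ℝ) with hr
  have hr2 : r ^ 2 = m := Real.sq_sqrt hmr0.le
  have hrpos : 0 < r := Real.sqrt_pos.2 hmr0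
  have hNr : (N : ℝ) < 4 * A * m * r := by
    have e1 : (N : ℝ) < A * m' := by exact_mod_cast hm'A
    have e2 : (A : ℝ) * m' ≤ A * (4 * m * r) := by
      apply mul_le_mul_of_nonneg_left hm'2 (Nat.cast_nonneg _)
    linarith
  have hAm : (A : ℝ) * m ≤ N := by exact_mod_cast hmA
  have hN0 : (0 : ℝ) < N := lt_of_lt_of_le (by positivity) hAm
  set x : ℝ := (N : ℝ) / m with hx
  have hxN : x * m = N := by rw [hx]; field_simp
  have hxA : (A : ℝ) ≤ x := by rw [hx, le_div_iff₀ hmr0]; exact hAm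
  have hx4 : x < 4 * A * r := by rw [hx, div_lt_iff₀ hmr0]; linarith
  -- the prime
  obtain ⟨ℓ, hℓ, hℓ1, hℓ2⟩ := hy0 ((x - 2) / (1 + η)) (by
    rw [le_div_iff₀ (by linarith)]
    have : y0 ≤ |y0| := le_abs_self _
    have h5 : 0 ≤ |y0| := abs_nonneg _
    have h6 : y0 * (1 + η) ≤ |y0| * (1 + η) := mul_le_mul_of_nonneg_right this (by linarith)
    have h7 : |y0| * (1 + η) ≤ |y0| * 2 := mul_le_mul_of_nonneg_left (by linarith) h5
    linarith)
  have hℓ3 : (ℓ : ℝ) + 2 ≤ x := by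
    have : (1 + η) * ((x - 2) / (1 + η)) = x - 2 := by field_simp
    linarith
  have hℓ4 : (1 - 2 * η) * x ≤ ℓ := by
    have e1 : (1 - η) * (x - 2) ≤ (x - 2) / (1 + η) := by
      rw [le_div_iff₀ (by linarith)]
      have h6 : 0 ≤ x - 2 := by linarith
      have h7 := mul_nonneg (sq_nonneg η) h6
      have h8 : (1 - η) * (x - 2) * (1 + η) = (x - 2) - η ^ 2 * (x - 2) := by ring
      linarith
    have e2 : 2 ≤ η * x := by
      have e3 : 2 < A * η := by rwa [div_lt_iff₀ hη0] at hA2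
      have e3' : (A : ℝ) * η ≤ x * η := mul_le_mul_of_nonneg_right hxA hη0.le
      linarith
    have e3 : (1 - η) * (x - 2) = x - 2 - η * x + 2 * η := by ring
    have e4 : (1 - 2 * η) * x = x - η * x - η * x := by ring
    linarith
  have hmono : (f ((ℓ + 2) * m) : ℝ) ≤ f N := by
    have e1 : (ℓ + 2) * m ≤ N := by
      have : (((ℓ + 2) * m : ℕ) : ℝ) ≤ N := by
        push_cast
        rw [← hxN]
        exact mul_le_mul_of_nonneg_right hℓ3 hmr0.le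
      exact_mod_cast this
    have e2 : 2 ≤ (ℓ + 2) * m := by nlinarith
    exact_mod_cast mono2 f h1 _ _ e2 e1
  have hstep := step f h2 h3 m ℓ hm5 hℓ
  have hgm : c2 - δ ≤ (f m : ℝ) / m := by
    unfold pot at hmpot
    have : 0 ≤ 20 / √(m : ℝ) := by positivity
    linarith
  have hg2 := g_le f h2 m (by omega)
  have hfm0 : (0 : ℝ) ≤ f m := Nat.cast_nonneg _
  have hg0 : 0 ≤ (f m : ℝ) / m := by positivity
  -- final
  have e1 : ((1 - 2 * η) * x * f m - 3 * x ^ 2) / N ≤ (f N : ℝ) / N := by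
    apply div_le_div_of_nonneg_right _ hN0.le
    have e2 : (1 - 2 * η) * x * f m ≤ ℓ * f m := mul_le_mul_of_nonneg_right hℓ4 hfm0
    have e3 : (ℓ : ℝ) ^ 2 ≤ x ^ 2 := by
      exact pow_le_pow_left₀ (Nat.cast_nonneg _) (by linarith) 2
    linarith
  have e4 : ((1 - 2 * η) * x * f m - 3 * x ^ 2) / N =
      (1 - 2 * η) * ((f m : ℝ) / m) - 3 * x / m := by
    rw [← hxN]
    have : x ≠ 0 := by linarith
    field_simp
  have e5 : 3 * x / m ≤ δ := by
    refine le_trans ?_ q2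
    rw [div_le_div_iff₀ hmr0 hrpos, ← hr2]
    have hA1' : (1 : ℝ) ≤ A := by linarith
    have e6 : x * r ≤ 4 * A * r * r := mul_le_mul_of_nonneg_right hx4.le hrpos.le
    have e7 : 12 * (A : ℝ) * r ^ 2 ≤ 48 * (A : ℝ) ^ 2 * r ^ 2 := by
      apply mul_le_mul_of_nonneg_right _ (sq_nonneg r)
      have : (A : ℝ) * 1 ≤ A * A := mul_le_mul_of_nonneg_left hA1' (by linarith)
      have e9 : (0 : ℝ) ≤ A := by linarith
      rw [pow_two]; linarith
    have e8 : 12 * (A : ℝ) * r ^ 2 = 3 * (4 * A * r * r) := by ring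
    linarith
  have e8 : (1 - 2 * η) * ((f m : ℝ) / m) ≥ (f m : ℝ) / m - δ := by
    have h6 := mul_le_mul_of_nonneg_left hg2 hη0.le
    have h7 : (1 - 2 * η) * ((f m : ℝ) / m) = (f m : ℝ) / m - 2 * (η * ((f m : ℝ) / m)) := by ring
    linarith
  have e9 : c = c2 - 4 * δ := by rw [hδ]; ring
  linarith

include h1 h2 h3 in
theorem lim_exists : ∃ L : ℝ, Tendsto (fun n : ℕ => (f n : ℝ) / n) atTop (𝓝 L) := by
  set g : ℕ → ℝ := fun n => (f n : ℝ) / n with hg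
  have hg0 : ∀ n, 0 ≤ g n := fun n => by rw [hg]; positivity
  have hg2 : ∀ᶠ n in atTop, g n ≤ 2 := by
    filter_upwards [eventually_ge_atTop 2] with n hn
    exact g_le f h2 n hn
  have hbU : IsBoundedUnder (· ≤ ·) atTop g := ⟨2, by simpa using hg2⟩
  have hbL : IsBoundedUnder (· ≥ ·) atTop g := ⟨0, by simp [hg0]⟩
  set L := limsup g atTop with hL
  refine ⟨L, tendsto_order.2 ⟨fun a ha => ?_, fun b hb => ?_⟩⟩
  · -- lower bound
    rcases lt_or_ge a 0 with ha0 | ha0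
    · exact Eventually.of_forall (fun n => lt_of_lt_of_le ha0 (hg0 n))
    obtain ⟨c, hc1, hc2⟩ := exists_between ha
    obtain ⟨c2, hc3, hc4⟩ := exists_between hc2
    have hfr : ∃ᶠ n in atTop, c2 < g n := frequently_lt_of_lt_limsup hbL.isCoboundedUnder_le hc4
    have hfr' : ∀ M : ℕ, ∃ m, M ≤ m ∧ c2 < (f m : ℝ) / m := by
      intro M
      obtain ⟨m, hm1, hm2⟩ := (hfr.and_eventually (eventually_ge_atTop M)).exists
      exact ⟨m, hm2, hm1⟩
    obtain ⟨N0, hN0⟩ := lower f h1 h2 h3 c c2 hc3 (by linarith) hfr'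
    filter_upwards [eventually_ge_atTop N0] with n hn
    exact lt_of_lt_of_le hc1 (hN0 n hn)
  · exact eventually_lt_of_limsup_lt hb hbU

end

end Pool.Agent.R453.CI
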