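import Pool.Agent.R453.CI.Defs

/-!
# The product construction
-/

set_option autoImplicit false
set_option linter.unusedSectionVars false

namespace Pool.Agent.R453.CI

open Relation Finset

section code

variable (ℓ s : ℕ)

abbrev Col := ZMod ℓ × ZMod s
abbrev Γ := (ZMod ℓ × ZMod ℓ) × ZMod s

/-- directions of the lines -/
def g : Option (ZMod ℓ) → ZMod ℓ × ZMod ℓ
  | none => (0, 1)
  | some i => (1, i)

def h (t : Option (ZMod ℓ)) (d : Col ℓ s) : Γ ℓ s := (d.1 • g ℓ t, d.2)

variable [Fact ℓ.Prime]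

def Φ (a : Option (ZMod ℓ) → Col ℓ s) : Γ ℓ s := ∑ t, h ℓ s t (a t)

theorem h_add (t : Option (ZMod ℓ)) (d e : Col ℓ s) : h ℓ s t (d + e) = h ℓ s t d + h ℓ s t e := by
  unfold h
  ext <;> simp [add_mul]

theorem h_zero (t : Option (ZMod ℓ)) : h ℓ s t 0 = 0 := by
  unfold h
  ext <;> simp

theorem Φ_add (a b : Option (ZMod ℓ) → Col ℓ s) : Φ ℓ s (a + b) = Φ ℓ s a + Φ ℓ s b := by
  unfold Φ
  rw [← Finset.sum_add_distrib]
  exact Finset.sum_congr rfl (fun t _ => h_add ℓ s t _ _)

theorem Φ_zero : Φ ℓ s 0 = 0 := by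
  unfold Φ
  exact Finset.sum_eq_zero (fun t _ => h_zero ℓ s t)

theorem Φ_single (t : Option (ZMod ℓ)) (d : Col ℓ s) : Φ ℓ s (Pi.single t d) = h ℓ s t d := by
  unfold Φ
  rw [Finset.sum_eq_single t]
  · rw [Pi.single_eq_same]
  · intro t' _ ht
    rw [Pi.single_eq_of_ne ht, h_zero]
  · intro ht; exact absurd (Finset.mem_univ t) ht

theorem upd_eq {Y : Type} [AddCommGroup Y] {T : Type} [DecidableEq T] (a : T → Y) (t : T) (d : Y) :
    Function.update a t (a t + d) = a + Pi.single t d := by
  funext t'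
  by_cases e : t' = t
  · subst e; simp
  · rw [Function.update_of_ne e, Pi.add_apply, Pi.single_eq_of_ne e, add_zero]

theorem Φ_upd (a : Option (ZMod ℓ) → Col ℓ s) (t : Option (ZMod ℓ)) (d : Col ℓ s) :
    Φ ℓ s (Function.update a t (a t + d)) = Φ ℓ s a + h ℓ s t d := by
  rw [upd_eq, Φ_add, Φ_single]

/-- the direction of the line through `0` and `δ` -/
noncomputable def dt (δ : ZMod ℓ × ZMod ℓ) : Option (ZMod ℓ) :=
  open Classical in if δ.1 = 0 then none else some (δ.2 / δ.1)

noncomputable def dl (δ : ZMod ℓ × ZMod ℓ) : ZMod ℓ :=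
  open Classical in if δ.1 = 0 then δ.2 else δ.1

theorem dl_smul (δ : ZMod ℓ × ZMod ℓ) : dl ℓ δ • g ℓ (dt ℓ δ) = δ := by
  unfold dl dt
  by_cases e : δ.1 = 0
  · rw [if_pos e, if_pos e]
    ext <;> simp [g, e]
  · rw [if_neg e, if_neg e]
    ext
    · simp [g]
    · simp only [g, Prod.smul_mk, smul_eq_mul]
      field_simp

/-- the change needed to get from `Φ a` to `γ` -/
noncomputable def ch (a γ : Γ ℓ s) : Option (ZMod ℓ) × Col ℓ s :=
  (dt ℓ (γ.1 - a.1), (dl ℓ (γ.1 - a.1), γ.2 - a.2))

theorem h_ch (a γ : Γ ℓ s) : h ℓ s (ch ℓ s a γ).1 (ch ℓ s a γ).2 = γ - a := by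
  unfold ch h
  simp only [dl_smul]
  rfl

theorem ch_ne (a γ : Γ ℓ s) (hne : a ≠ γ) : (ch ℓ s a γ).2 ≠ 0 := by
  intro e
  have h1 := h_ch ℓ s a γ
  rw [e, h_zero] at h1
  exact hne (sub_eq_zero.1 h1.symm).symm

end code

section mv

variable {V : Type} {G : SimpleGraph V} {ℓ s : ℕ} [Fact ℓ.Prime] (S : CS G (Col ℓ s))

/-- the value of `Φ` on the colours of the blocks -/
def val (x : Option (ZMod ℓ) → V) : Γ ℓ s := Φ ℓ s (fun t => S.c (x t))

/-- move to the value `γ` -/
noncomputable def mv (x : Option (ZMod ℓ) → V) (γ : Γ ℓ s) : Option (ZMod ℓ) → V :=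
  Function.update x (ch ℓ s (val S x) γ).1
    (S.φ (x (ch ℓ s (val S x) γ).1) (S.c (x (ch ℓ s (val S x) γ).1) + (ch ℓ s (val S x) γ).2))

theorem col_upd (x : Option (ZMod ℓ) → V) (t : Option (ZMod ℓ)) (b : Col ℓ s) (hb : b ≠ S.c (x t)) :
    (fun t' => S.c (Function.update x t (S.φ (x t) b) t')) =
      Function.update (fun t' => S.c (x t')) t b := by
  funext t'
  by_cases e : t' = t
  · subst e
    rw [Function.update_self, Function.update_self, S.col _ _ hb]
  · rw [Function.update_of_ne e, Function.update_of_ne e]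

theorem adj_upd (x : Option (ZMod ℓ) → V) (t : Option (ZMod ℓ)) (b : Col ℓ s) (hb : b ≠ S.c (x t)) :
    (piG (Option (ZMod ℓ)) G).Adj x (Function.update x t (S.φ (x t) b)) := by
  refine ⟨t, ?_, fun t' ht => ?_⟩
  · rw [Function.update_self]; exact S.adj _ _ hb
  · rw [Function.update_of_ne ht]

theorem mv_ne (x : Option (ZMod ℓ) → V) (γ : Γ ℓ s) (hne : val S x ≠ γ) :
    S.c (x (ch ℓ s (val S x) γ).1) + (ch ℓ s (val S x) γ).2 ≠ S.c (x (ch ℓ s (val S x) γ).1) := by
  intro e
  exact ch_ne ℓ s _ _ hne (by simpa using e)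

theorem mv_val (x : Option (ZMod ℓ) → V) (γ : Γ ℓ s) (hne : val S x ≠ γ) :
    val S (mv S x γ) = γ := by
  have h1 : val S (mv S x γ) = Φ ℓ s (Function.update (fun t' => S.c (x t')) (ch ℓ s (val S x) γ).1
      (S.c (x (ch ℓ s (val S x) γ).1) + (ch ℓ s (val S x) γ).2)) := by
    rw [← col_upd S x _ _ (mv_ne S x γ hne)]
    rfl
  rw [h1, Φ_upd ℓ s (fun t' => S.c (x t')), h_ch]
  change val S x + (γ - val S x) = γ
  abel

theorem mv_adj (x : Option (ZMod ℓ) → V) (γ : Γ ℓ s) (hne : val S x ≠ γ) :
    (piG (Option (ZMod ℓ)) G).Adj x (mv S x γ) :=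
  adj_upd S x _ _ (mv_ne S x γ hne)

theorem mv_anti (x : Option (ZMod ℓ) → V) (γ γ' : Γ ℓ s) (hne : val S x ≠ γ) (hne' : γ ≠ γ') :
    mv S (mv S x γ) γ' ≠ x := by
  intro e
  set y := mv S x γ with hy
  have hv : val S y = γ := mv_val S x γ hne
  have hne2 : val S y ≠ γ' := by rw [hv]; exact hne'
  set t := (ch ℓ s (val S x) γ).1 with ht
  set b := S.c (x t) + (ch ℓ s (val S x) γ).2 with hb
  have hbne : b ≠ S.c (x t) := mv_ne S x γ hne
  have hyt : y t = S.φ (x t) b := by
    rw [hy]; unfold mv; rw [← ht, Function.update_self]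
  set t' := (ch ℓ s (val S y) γ').1 with ht'
  set b' := S.c (y t') + (ch ℓ s (val S y) γ').2 with hb'
  have hbne' : b' ≠ S.c (y t') := mv_ne S y γ' hne2
  have hxt : (mv S y γ') t' = S.φ (y t') b' := by
    unfold mv; rw [← ht', Function.update_self]
  by_cases htt : t' = t
  · rw [htt] at hxt hbne'
    rw [e, hyt] at hxt
    rw [hyt] at hbne'
    -- x t = φ (φ (x t) b) b'
    by_cases h1 : b' = S.c (x t)
    · rw [h1] at hxt
      exact S.anti (x t) b hbne hxt.symm
    · have h2 := S.col (S.φ (x t) b) b' hbne'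
      rw [← hxt] at h2
      exact h1 h2.symm
  · have h3 : (mv S y γ') t = y t := by
      unfold mv
      rw [Function.update_of_ne (fun h => htt h.symm)]
    rw [e, hyt] at h3
    exact (S.adj (x t) b hbne).ne h3

end mv

section conn

variable {V : Type} {G : SimpleGraph V} {ℓ s : ℕ} [Fact ℓ.Prime] (S : CS G (Col ℓ s))

/-- spare values -/
def ok (b : ZMod s) : Prop := b ≠ 0 ∧ b ≠ 1

/-- allowed values in the layer of `γ` -/
def al (γ : Γ ℓ s) (v : Γ ℓ s) : Prop := v = γ ∨ ¬ ok v.2

/-- steps between allowed points in one layer -/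
def st (γ : Γ ℓ s) (x y : Option (ZMod ℓ) → V) : Prop :=
  (piG (Option (ZMod ℓ)) G).Adj x y ∧ al γ (val S x) ∧ al γ (val S y)

/-- points with the same colour vector are connected -/
theorem same_cell (γ : Γ ℓ s) (x y : Option (ZMod ℓ) → V) (hx : al γ (val S x))
    (hxy : ∀ t, S.c (x t) = S.c (y t)) : ReflTransGen (st S γ) x y := by
  refine pi_conn (fun _ a b => G.Adj a b ∧ S.c a = S.c b) (st S γ) x y
    (fun t => S.conn _ _ (hxy t)) ?_
  intro z t a b hab hz ha hb
  have hca : ∀ {a b}, ReflTransGen (fun a b => G.Adj a b ∧ S.c a = S.c b) a b → S.c a = S.c b := by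
    intro a b hab
    induction hab with
    | refl => rfl
    | tail _ h2 ih => rw [ih, h2.2]
  have h1 : ∀ w, S.c w = S.c (x t) → val S (Function.update z t w) = val S x := by
    intro w hw
    unfold val
    congr 1
    funext t'
    by_cases e : t' = t
    · subst e; rw [Function.update_self, hw]
    · rw [Function.update_of_ne e]
      rcases hz t' e with h | h
      · rw [h]
      · rw [h, hxy t']
  refine ⟨⟨t, ?_, fun t' ht' => ?_⟩, ?_, ?_⟩
  · rw [Function.update_self, Function.update_self]; exact hab.1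
  · rw [Function.update_of_ne ht', Function.update_of_ne ht']
  · rw [h1 a (hca ha).symm]; exact hx
  · rw [h1 b (by rw [← hab.2]; exact (hca ha).symm)]; exact hx

/-- steps between colour vectors -/
def cst (γ : Γ ℓ s) (a b : Option (ZMod ℓ) → Col ℓ s) : Prop :=
  (∃ t, a t ≠ b t ∧ ∀ t', t' ≠ t → a t' = b t') ∧ al γ (Φ ℓ s a) ∧ al γ (Φ ℓ s b)

theorem lift_cst (γ : Γ ℓ s) (a b : Option (ZMod ℓ) → Col ℓ s) (hab : ReflTransGen (cst γ) a b)
    (x : Option (ZMod ℓ) → V) (hx : ∀ t, S.c (x t) = a t) :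
    ∃ y : Option (ZMod ℓ) → V, (∀ t, S.c (y t) = b t) ∧ ReflTransGen (st S γ) x y := by
  induction hab with
  | refl => exact ⟨x, hx, ReflTransGen.refl⟩
  | @tail b c _ h2 ih =>
    obtain ⟨y, hy, hxy⟩ := ih
    obtain ⟨⟨t, h3, h4⟩, h5, h6⟩ := h2
    have hne : c t ≠ S.c (y t) := by rw [hy]; exact h3.symm
    have hcol := col_upd S y t (c t) hne
    have hcc : Function.update (fun t' => S.c (y t')) t (c t) = c := by
      funext t'
      by_cases e : t' = t
      · subst e; rw [Function.update_self]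
      · rw [Function.update_of_ne e, hy, h4 t' e]
    refine ⟨Function.update y t (S.φ (y t) (c t)), fun t' => ?_, hxy.tail ⟨adj_upd S y t _ hne, ?_, ?_⟩⟩
    · have := congrFun hcol t'
      rw [this, hcc]
    · unfold val
      have : (fun t => S.c (y t)) = b := funext hy
      rw [this]; exact h5
    · unfold val
      rw [hcol, hcc]; exact h6

variable (ℓ s) in
theorem Φ_snd (a : Option (ZMod ℓ) → Col ℓ s) : (Φ ℓ s a).2 = ∑ t, (a t).2 := by
  unfold Φ
  rw [Prod.snd_sum]
  rfl

/-- change one value -/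
theorem cst_upd (γ : Γ ℓ s) (a : Option (ZMod ℓ) → Col ℓ s) (t : Option (ZMod ℓ)) (d : Col ℓ s)
    (ha : al γ (Φ ℓ s a)) (hb : al γ (Φ ℓ s a + h ℓ s t d)) :
    ReflTransGen (cst γ) a (Function.update a t (a t + d)) := by
  by_cases e : d = 0
  · subst e
    rw [add_zero, Function.update_eq_self]
  · refine ReflTransGen.single ⟨⟨t, ?_, fun t' ht => ?_⟩, ha, ?_⟩
    · rw [Function.update_self]; simpa using fun h => e h
    · rw [Function.update_of_ne ht]
    · rw [Φ_upd]; exact hb

theorem al_of_snd0 (γ v : Γ ℓ s) (hv : v.2 = 0) : al γ v := Or.inr (fun h => h.1 hv)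
theorem al_of_snd1 (γ v : Γ ℓ s) (hv : v.2 = 1) : al γ v := Or.inr (fun h => h.2 hv)

/-- set all first components to zero, keeping the sum of the second components -/
theorem to_fst_zero (γ : Γ ℓ s) (a : Option (ZMod ℓ) → Col ℓ s) (ha : (Φ ℓ s a).2 = 0) :
    ReflTransGen (cst γ) a (fun t => (0, (a t).2)) := by
  have h1 : ∀ S : Finset (Option (ZMod ℓ)),
      ReflTransGen (cst γ) a (fun t => if t ∈ S then ((0, (a t).2) : Col ℓ s) else a t) := by
    intro S
    induction S using Finset.induction_on with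
    | empty => simp only [Finset.notMem_empty, if_false]; exact ReflTransGen.refl
    | insert t S ht ih =>
      refine ih.trans ?_
      set z : Option (ZMod ℓ) → Col ℓ s := fun t => if t ∈ S then ((0, (a t).2) : Col ℓ s) else a t with hz
      have hz2 : (Φ ℓ s z).2 = 0 := by
        rw [Φ_snd] at ha ⊢
        rw [← ha]
        refine Finset.sum_congr rfl (fun t' _ => ?_)
        rw [hz]; dsimp only
        split_ifs <;> rfl
      have h2 : (fun t' => if t' ∈ insert t S then ((0, (a t').2) : Col ℓ s) else a t') =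
          Function.update z t (z t + (-(a t).1, 0)) := by
        funext t'
        by_cases e : t' = t
        · subst e
          rw [Function.update_self, if_pos (Finset.mem_insert_self _ _), hz]
          dsimp only
          rw [if_neg ht]
          ext <;> simp
        · rw [Function.update_of_ne e, hz]
          dsimp only
          simp only [Finset.mem_insert, e, false_or]
      rw [h2]
      refine cst_upd γ z t _ (al_of_snd0 _ _ hz2) (al_of_snd0 _ _ ?_)
      rw [Prod.snd_add, hz2]
      simp [h]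
  have := h1 Finset.univ
  simpa using this

/-- set the second component of one block to zero, compensating at `none` -/
theorem dec_one (γ : Γ ℓ s) (n : ℕ) : ∀ (a : Option (ZMod ℓ) → Col ℓ s) (_ : (Φ ℓ s a).2 = 0) (i : ZMod ℓ),
    ReflTransGen (cst γ) a
      (a + Pi.single none ((0, (n : ZMod s)) : Col ℓ s) + Pi.single (some i) ((0, -(n : ZMod s)) : Col ℓ s)) := by
  induction n with
  | zero =>
    intro a _ i
    have h0 : ((0, ((0 : ℕ) : ZMod s)) : Col ℓ s) = 0 := by ext <;> simp
    have h0' : ((0, -((0 : ℕ) : ZMod s)) : Col ℓ s) = 0 := by ext <;> simp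
    rw [h0, h0', Pi.single_zero, Pi.single_zero, add_zero, add_zero]
  | succ n ih =>
    intro a ha i
    have h1 : ReflTransGen (cst γ) a (a + Pi.single none ((0, 1) : Col ℓ s)) := by
      rw [← upd_eq]
      refine cst_upd γ a none _ (al_of_snd0 _ _ ha) (al_of_snd1 _ _ ?_)
      rw [Prod.snd_add, ha]; simp [h]
    have h2 : (Φ ℓ s (a + Pi.single none ((0, 1) : Col ℓ s))).2 = 1 := by
      rw [Φ_add, Φ_single, Prod.snd_add, ha]; simp [h]
    have h3 : ReflTransGen (cst γ) (a + Pi.single none ((0, 1) : Col ℓ s))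
        (a + Pi.single none ((0, 1) : Col ℓ s) + Pi.single (some i) ((0, -1) : Col ℓ s)) := by
      have h3' := upd_eq (a + Pi.single none ((0, 1) : Col ℓ s)) (some i) ((0, -1) : Col ℓ s)
      rw [← h3']
      refine cst_upd γ _ (some i) _ (al_of_snd1 _ _ h2) (al_of_snd0 _ _ ?_)
      rw [Prod.snd_add, h2]; simp [h]
    have h4 : (Φ ℓ s (a + Pi.single none ((0, 1) : Col ℓ s) + Pi.single (some i) ((0, -1) : Col ℓ s))).2 = 0 := by
      rw [Φ_add, Φ_single, Prod.snd_add, h2]; simp [h]
    refine (h1.trans h3).trans ?_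
    have h5 := ih _ h4 i
    convert h5 using 1
    have e1 : ((0, ((n + 1 : ℕ) : ZMod s)) : Col ℓ s) = (0, 1) + (0, (n : ZMod s)) := by
      ext <;> simp [add_comm]
    have e2 : ((0, -((n + 1 : ℕ) : ZMod s)) : Col ℓ s) = (0, -1) + (0, -(n : ZMod s)) := by
      ext
      · simp
      · push_cast; simp only [Prod.mk_add_mk]; ring
    rw [e1, e2, Pi.single_add, Pi.single_add]
    abel

/-- every allowed colour vector is connected to zero -/
theorem to_zero [NeZero s] (γ : Γ ℓ s) (a : Option (ZMod ℓ) → Col ℓ s) (ha : al γ (Φ ℓ s a)) :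
    ReflTransGen (cst γ) a 0 := by
  -- first make the sum of the second components zero
  have h1 : ReflTransGen (cst γ) a (a + Pi.single none ((0, -(Φ ℓ s a).2) : Col ℓ s)) := by
    rw [← upd_eq]
    refine cst_upd γ a none _ ha (al_of_snd0 _ _ ?_)
    simp [h]
  have h2 : (Φ ℓ s (a + Pi.single none ((0, -(Φ ℓ s a).2) : Col ℓ s))).2 = 0 := by
    rw [Φ_add, Φ_single, Prod.snd_add]; simp [h]
  refine h1.trans ?_
  set b := a + Pi.single none ((0, -(Φ ℓ s a).2) : Col ℓ s) with hb
  clear_value b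
  have h3 := to_fst_zero γ b h2
  refine h3.trans ?_
  set c : Option (ZMod ℓ) → Col ℓ s := fun t => (0, (b t).2) with hc
  have hc1 : ∀ t, (c t).1 = 0 := fun t => rfl
  have hc2 : (Φ ℓ s c).2 = 0 := by
    rw [Φ_snd] at h2 ⊢
    exact h2
  clear_value c
  -- now all second components
  have h4 : ∀ F : Finset (ZMod ℓ), ∃ d : Option (ZMod ℓ) → Col ℓ s, ReflTransGen (cst γ) c d ∧
      (∀ t, (d t).1 = 0) ∧ (Φ ℓ s d).2 = 0 ∧ ∀ i ∈ F, (d (some i)).2 = 0 := by
    intro F
    induction F using Finset.induction_on with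
    | empty => exact ⟨c, ReflTransGen.refl, hc1, hc2, by simp⟩
    | insert i F hi ih =>
      obtain ⟨d, hd1, hd2, hd3, hd4⟩ := ih
      refine ⟨_, hd1.trans (dec_one γ (d (some i)).2.val d hd3 i), ?_, ?_, ?_⟩
      · intro t
        simp only [Pi.add_apply, Prod.fst_add, hd2]
        by_cases e1 : t = none
        · subst e1
          rw [Pi.single_eq_same, Pi.single_eq_of_ne (by simp)]; simp
        · by_cases e2 : t = some i
          · subst e2
            rw [Pi.single_eq_same, Pi.single_eq_of_ne (by simp)]; simp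
          · rw [Pi.single_eq_of_ne e1, Pi.single_eq_of_ne e2]; simp
      · rw [Φ_add, Φ_add, Φ_single, Φ_single, Prod.snd_add, Prod.snd_add, hd3]; simp [h]
      · intro j hj
        rw [Finset.mem_insert] at hj
        rw [Pi.add_apply, Pi.add_apply, Pi.single_eq_of_ne (by simp)]
        by_cases e : j = i
        · subst e
          rw [Pi.single_eq_same]
          simp
        · rw [Pi.single_eq_of_ne (by simpa using e)]
          rcases hj with hj | hj
          · exact absurd hj e
          · simp [hd4 j hj]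
  obtain ⟨d, hd1, hd2, hd3, hd4⟩ := h4 Finset.univ
  have : d = 0 := by
    have hs : ∀ i, d (some i) = 0 := fun i => Prod.ext (hd2 _) (hd4 i (Finset.mem_univ i))
    funext t
    cases t with
    | some i => exact hs i
    | none =>
      refine Prod.ext (hd2 _) ?_
      rw [Φ_snd, Fintype.sum_option] at hd3
      have : ∑ i, (d (some i)).2 = 0 := Finset.sum_eq_zero (fun i _ => by rw [hs i]; rfl)
      rw [this, add_zero] at hd3
      exact hd3
  rw [← this]; exact hd1

theorem cst_symm (γ : Γ ℓ s) (a b : Option (ZMod ℓ) → Col ℓ s) (hab : ReflTransGen (cst γ) a b) :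
    ReflTransGen (cst γ) b a := by
  induction hab with
  | refl => exact ReflTransGen.refl
  | tail _ h2 ih =>
    obtain ⟨⟨t, h3, h4⟩, h5, h6⟩ := h2
    exact ReflTransGen.head ⟨⟨t, h3.symm, fun t' ht => (h4 t' ht).symm⟩, h6, h5⟩ ih

/-- the allowed points of a layer are connected -/
theorem layer_conn [NeZero s] (γ : Γ ℓ s) (x y : Option (ZMod ℓ) → V) (hx : al γ (val S x))
    (hy : al γ (val S y)) : ReflTransGen (st S γ) x y := by
  have h1 := (to_zero γ _ hx).trans (cst_symm γ _ _ (to_zero γ _ hy))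
  obtain ⟨z, hz1, hz2⟩ := lift_cst S γ _ _ h1 x (fun t => rfl)
  refine hz2.trans (same_cell S γ z y ?_ hz1)
  have : val S z = val S y := by
    unfold val; congr 1; funext t; exact hz1 t
  rw [this]; exact hy

end conn

/-- colours of the product: the values which are not spare -/
abbrev K' (ℓ s : ℕ) := {γ : Γ ℓ s // ok γ.2}

open Classical in
/-- the product construction -/
noncomputable def CS.prod {V W : Type} {G : SimpleGraph V} {H : SimpleGraph W} {ℓ s : ℕ} [Fact ℓ.Prime]
    [NeZero s] (S : CS G (Col ℓ s)) (hH : ∀ u v, ReflTransGen H.Adj u v) (ψ : W → K' ℓ s)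
    (ψi : K' ℓ s → W) (hψ : ∀ j, ψ (ψi j) = j) :
    CS (piG (Option (ZMod ℓ)) G □ H) (K' ℓ s) where
  c v := if h : ok (val S v.1).2 then ⟨val S v.1, h⟩ else ψ v.2
  φ v j := (mv S v.1 j.1, v.2)
  adj v j hj := by
    have hne : val S v.1 ≠ j.1 := by
      intro e
      have h1 : ok (val S v.1).2 := by rw [e]; exact j.2
      rw [dif_pos h1] at hj
      exact hj (Subtype.ext e.symm)
    rw [SimpleGraph.boxProd_adj]
    exact Or.inl ⟨mv_adj S v.1 j.1 hne, rfl⟩
  col v j hj := by
    have hne : val S v.1 ≠ j.1 := by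
      intro e
      have h1 : ok (val S v.1).2 := by rw [e]; exact j.2
      rw [dif_pos h1] at hj
      exact hj (Subtype.ext e.symm)
    have h2 := mv_val S v.1 j.1 hne
    dsimp only
    have h3 : ok (val S (mv S v.1 j.1)).2 := by rw [h2]; exact j.2
    rw [dif_pos h3]
    exact Subtype.ext h2
  anti v j hj := by
    have hne : val S v.1 ≠ j.1 := by
      intro e
      have h1 : ok (val S v.1).2 := by rw [e]; exact j.2
      rw [dif_pos h1] at hj
      exact hj (Subtype.ext e.symm)
    intro e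
    refine mv_anti S v.1 j.1 _ hne (fun e' => hj (Subtype.ext e')) (congrArg Prod.fst e)
  conn := by
    have key : ∀ (j : K' ℓ s) (u : (Option (ZMod ℓ) → V) × W),
        (if h : ok (val S u.1).2 then (⟨val S u.1, h⟩ : K' ℓ s) else ψ u.2) = j →
        ∀ v : (Option (ZMod ℓ) → V) × W,
        (if h : ok (val S v.1).2 then (⟨val S v.1, h⟩ : K' ℓ s) else ψ v.2) = j →
        ReflTransGen (fun a b : (Option (ZMod ℓ) → V) × W => (piG (Option (ZMod ℓ)) G □ H).Adj a b ∧
          (if h : ok (val S a.1).2 then (⟨val S a.1, h⟩ : K' ℓ s) else ψ a.2) =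
          (if h : ok (val S b.1).2 then (⟨val S b.1, h⟩ : K' ℓ s) else ψ b.2)) u v := by
      intro j
      set R := fun a b : (Option (ZMod ℓ) → V) × W => (piG (Option (ZMod ℓ)) G □ H).Adj a b ∧
          (if h : ok (val S a.1).2 then (⟨val S a.1, h⟩ : K' ℓ s) else ψ a.2) =
          (if h : ok (val S b.1).2 then (⟨val S b.1, h⟩ : K' ℓ s) else ψ b.2) with hR
      have hsymm : ∀ a b, ReflTransGen R a b → ReflTransGen R b a := by
        intro a b hab
        induction hab with
        | refl => exact ReflTransGen.refl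
        | tail _ h2 ih => exact ReflTransGen.head ⟨h2.1.symm, h2.2.symm⟩ ih
      -- points with value `j` can be moved to the layer of `j`
      have hA : ∀ (x : Option (ZMod ℓ) → V) (w w' : W), val S x = j.1 → ReflTransGen R (x, w) (x, w') := by
        intro x w w' hx
        refine rlift (f := fun a => ((x, a) : (Option (ZMod ℓ) → V) × W)) ?_ (hH w w')
        intro a b hab
        refine ⟨by rw [SimpleGraph.boxProd_adj]; exact Or.inr ⟨hab, rfl⟩, ?_⟩
        have h3 : ok (val S x).2 := by rw [hx]; exact j.2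
        dsimp only
        rw [dif_pos h3]
        simp [h3]
      -- every point of the class is connected to a point with value `j`
      have hB : ∀ u : (Option (ZMod ℓ) → V) × W,
          (if h : ok (val S u.1).2 then (⟨val S u.1, h⟩ : K' ℓ s) else ψ u.2) = j →
          ∃ x, val S x = j.1 ∧ ReflTransGen R u (x, ψi j) := by
        intro u hu
        by_cases h1 : ok (val S u.1).2
        · have h2 : val S u.1 = j.1 := by
            rw [dif_pos h1] at hu
            exact congrArg Subtype.val hu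
          exact ⟨u.1, h2, hA u.1 u.2 (ψi j) h2⟩
        · have hne : val S u.1 ≠ j.1 := by
            intro e; rw [e] at h1; exact h1 j.2
          have h2 := mv_val S u.1 j.1 hne
          refine ⟨mv S u.1 j.1, h2, ReflTransGen.head (b := (mv S u.1 j.1, u.2)) ⟨?_, ?_⟩ (hA _ _ _ h2)⟩
          · rw [SimpleGraph.boxProd_adj]
            exact Or.inl ⟨mv_adj S u.1 j.1 hne, rfl⟩
          · rw [hu]
            have h3 : ok (val S (mv S u.1 j.1)).2 := by rw [h2]; exact j.2
            dsimp only
            rw [dif_pos h3]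
            exact (Subtype.ext h2).symm
      -- within the layer
      have hC : ∀ x y : Option (ZMod ℓ) → V, al j.1 (val S x) → al j.1 (val S y) →
          ReflTransGen R (x, ψi j) (y, ψi j) := by
        intro x y hx hy
        refine rlift (f := fun a => ((a, ψi j) : (Option (ZMod ℓ) → V) × W)) ?_ (layer_conn S j.1 x y hx hy)
        intro a b hab
        refine ⟨by rw [SimpleGraph.boxProd_adj]; exact Or.inl ⟨hab.1, rfl⟩, ?_⟩
        have h4 : ∀ a, al j.1 (val S a) →
            (if h : ok (val S a).2 then (⟨val S a, h⟩ : K' ℓ s) else ψ (ψi j)) = j := by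
          intro a ha
          by_cases h5 : ok (val S a).2
          · rw [dif_pos h5]
            rcases ha with ha | ha
            · exact Subtype.ext ha
            · exact absurd h5 ha
          · rw [dif_neg h5, hψ]
        dsimp only
        rw [h4 a hab.2.1, h4 b hab.2.2]
      intro u hu v hv
      obtain ⟨x, hx1, hx2⟩ := hB u hu
      obtain ⟨y, hy1, hy2⟩ := hB v hv
      exact (hx2.trans (hC x y (Or.inl hx1) (Or.inl hy1))).trans (hsymm _ _ hy2)
    intro u v huv
    exact key _ u huv v rfl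

end Pool.Agent.R453.CI
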